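import Mathlib
import Pool.Agent.MP_6b3410_lc.H75.Spec

/-!
The differential inequality along the chain, and the choice of the parameters.
-/

namespace Pool.Agent.MP_6b3410_lc.H21

open Pool.Agent.MP_6b3410_lc.H75

lemma hs_succ (r t : ℕ) : hs r (t + 1) = hs r t + 1 / ((r : ℝ) - t) := by
  simp [hs, Finset.sum_range_succ]

lemma hs_nonneg (r t : ℕ) (ht : t ≤ r) : 0 ≤ hs r t := by
  refine Finset.sum_nonneg fun i hi => ?_
  have : (i : ℝ) < r := by exact_mod_cast (Finset.mem_range.1 hi).trans_le ht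
  exact div_nonneg zero_le_one (by linarith)

lemma hs_le (r t : ℕ) (ht : t < r) : hs r t ≤ Real.log r - Real.log ((r : ℝ) - t) := by
  induction t with
  | zero => simp [hs]
  | succ t ih =>
    have h1 : ((t : ℝ) + 1) < r := by exact_mod_cast ht
    have hu : (0 : ℝ) < r - t := by linarith
    have hv : (0 : ℝ) < r - (t + 1) := by linarith
    have h2 := Real.log_le_sub_one_of_pos (div_pos hv hu)
    rw [Real.log_div hv.ne' hu.ne'] at h2
    have h3 : ((r : ℝ) - (t + 1)) / (r - t) - 1 = -(1 / ((r : ℝ) - t)) := by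
      field_simp
      ring
    have := ih (by omega)
    rw [hs_succ]
    push_cast
    linarith

lemma hs_le_log (r t : ℕ) (ht : t < r) : hs r t ≤ Real.log r := by
  have h1 : ((t : ℝ) + 1) ≤ r := by exact_mod_cast ht
  have := Real.log_nonneg (show (1 : ℝ) ≤ r - t by linarith)
  linarith [hs_le r t ht]

lemma exp_neg_two {y : ℝ} (h0 : 0 ≤ y) (h1 : y ≤ 1 / 2) : Real.exp (-(2 * y)) ≤ 1 - y := by
  have h := Real.add_one_le_exp (2 * y)
  rw [Real.exp_neg, inv_le_iff_one_le_mul₀ (Real.exp_pos _)]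
  nlinarith

lemma exp_eight : Real.exp (-8) ≤ 1 / 25 := by
  have h := Real.add_one_le_exp (4 : ℝ)
  have h2 : Real.exp 8 = Real.exp 4 * Real.exp 4 := by
    rw [← Real.exp_add]
    norm_num
  rw [Real.exp_neg, inv_le_iff_one_le_mul₀ (Real.exp_pos _), h2]
  nlinarith

lemma pow_five {s h : ℝ} (hs : 0 ≤ s) (hh : 0 ≤ h) : s ^ 5 + 5 * s ^ 4 * h ≤ (s + h) ^ 5 := by
  have : (s + h) ^ 5 = s ^ 5 + 5 * s ^ 4 * h +
      (10 * s ^ 3 * h ^ 2 + 10 * s ^ 2 * h ^ 3 + 5 * s * h ^ 4 + h ^ 5) := by ring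
  rw [this]
  have : 0 ≤ 10 * s ^ 3 * h ^ 2 + 10 * s ^ 2 * h ^ 3 + 5 * s * h ^ 4 + h ^ 5 := by positivity
  linarith

/-- the step of the main induction -/
lemma step {A s u ε F Y Y' c : ℝ} (hs : 0 < s) (hu : 0 < u) (hε : 0 < ε) (hε' : ε ≤ 1 / 100)
    (hA : 40 ≤ A * s ^ 5) (hF : 8 + A * s ^ 5 ≤ F) (hus : 8 * (F + 1) ≤ u * s)
    (he : 3 * ε * (u * s) ≤ 2) (hY : Real.exp (-(8 + A * s ^ 5)) ≤ Y)
    (hrec : (1 - 2 * ε) * Y - ε * Real.exp (-F) - 2 * c / u ≤ Y')
    (hc : c * s ≤ (8 + A * s ^ 5) * Y + Real.exp (-(8 + A * s ^ 5))) :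
    Real.exp (-(8 + A * (s + 1 / u) ^ 5)) ≤ Y' := by
  have hA0 : 0 < A := by
    by_contra h
    push Not at h
    have := mul_nonpos_of_nonpos_of_nonneg h (pow_pos hs 5).le
    linarith
  set G := 8 + A * s ^ 5 with hG
  set E := Real.exp (-G) with hE
  have hE0 : 0 < E := Real.exp_pos _
  have hus0 : 0 < u * s := mul_pos hu hs
  set w := 1 / (u * s) with hw
  have hw0 : 0 < w := by positivity
  have hw1 : w * (u * s) = 1 := by
    rw [hw]
    field_simp
  have h1 : Real.exp (-F) ≤ E := Real.exp_le_exp.2 (by linarith)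
  have h2 : 2 * c / u ≤ 2 * w * (G * Y + E) := by
    have : 2 * c / u = 2 * w * (c * s) := by
      rw [hw]
      field_simp
    rw [this]
    exact mul_le_mul_of_nonneg_left hc (by positivity)
  have h3 : w * (G + 1) ≤ 1 / 8 := by
    have : w * (8 * (F + 1)) ≤ w * (u * s) := mul_le_mul_of_nonneg_left hus hw0.le
    nlinarith
  have h4 : 3 * ε ≤ 2 * w := by
    have : w * (3 * ε * (u * s)) ≤ w * 2 := mul_le_mul_of_nonneg_left he hw0.le
    have h5 : w * (3 * ε * (u * s)) = 3 * ε * (w * (u * s)) := by ring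
    rw [h5, hw1] at this
    linarith
  set y := 3 * ε + 2 * w * (G + 1) with hy
  have hG0 : 0 < G := by linarith
  have hy0 : 0 ≤ y := by positivity
  have hy1 : y ≤ 1 / 2 := by linarith
  have h5 : E * (1 - y) ≤ Y' := by
    have h6 : 0 ≤ 1 - 2 * ε - 2 * w * G := by nlinarith
    have h7 : (1 - 2 * ε - 2 * w * G) * E ≤ (1 - 2 * ε - 2 * w * G) * Y :=
      mul_le_mul_of_nonneg_left hY h6
    have h8 : ε * Real.exp (-F) ≤ ε * E := mul_le_mul_of_nonneg_left h1 hε.le
    have h9 : E * (1 - y) = (1 - 2 * ε - 2 * w * G) * E - ε * E - 2 * w * E := by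
      rw [hy]
      ring
    nlinarith
  have h6 : G + 2 * y ≤ 8 + A * (s + 1 / u) ^ 5 := by
    have h7 := mul_le_mul_of_nonneg_left (pow_five hs.le (one_div_pos.2 hu).le) hA0.le
    have h8 : A * (5 * s ^ 4 * (1 / u)) = 5 * w * (A * s ^ 5) := by
      rw [hw]
      field_simp
    have h9 : w * 40 ≤ w * (A * s ^ 5) := mul_le_mul_of_nonneg_left hA hw0.le
    have h10 : 2 * y = 6 * ε + 36 * w + 4 * w * (A * s ^ 5) := by
      rw [hy, hG]
      ring
    rw [mul_add, h8] at h7
    linarith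
  calc Real.exp (-(8 + A * (s + 1 / u) ^ 5)) ≤ Real.exp (-G + -(2 * y)) :=
        Real.exp_le_exp.2 (by linarith)
    _ = E * Real.exp (-(2 * y)) := Real.exp_add _ _
    _ ≤ E * (1 - y) := mul_le_mul_of_nonneg_left (exp_neg_two hy0 hy1) hE0.le
    _ ≤ Y' := h5

lemma exists_large (C : ℝ) : ∃ r : ℕ, 1 ≤ Real.log r ∧ C * Real.log r ^ 11 ≤ r := by
  have h1 := (Real.isLittleO_pow_log_id_atTop (n := 11)).const_mul_left C
  have h2 := (h1.bound (c := 1) one_pos).and
    (Real.tendsto_log_atTop.eventually_ge_atTop 1)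
  obtain ⟨r, hr1, hr2⟩ := (tendsto_natCast_atTop_atTop.eventually h2).exists
  refine ⟨r, hr2, ?_⟩
  simp only [id, Real.norm_eq_abs, one_mul, Nat.abs_cast] at hr1
  exact (le_abs_self _).trans hr1

theorem chain : ChainStmt := by
  intro k hk
  have hk' : (1 : ℝ) ≤ k := by exact_mod_cast hk
  set s₀ : ℝ := 1 / (200 * k) with hs₀
  have hs0 : 0 < s₀ := by positivity
  set A : ℝ := 40 / s₀ ^ 5 with hA
  have hA0 : 0 < A := by positivity
  obtain ⟨r, hL, hr⟩ := exists_large (2000 * 1601 * k ^ 2 * 2 * (9 + A) ^ 2)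
  set L := Real.log r with hLdef
  have hL5 : 1 ≤ L ^ 5 := one_le_pow₀ hL
  set F : ℝ := (8 + A) * L ^ 5 with hF
  have hF8 : 8 + A * L ^ 5 ≤ F := by
    rw [hF]
    linarith
  have hAL : 0 ≤ A * L ^ 5 := by positivity
  have hF1 : F + 1 ≤ (9 + A) * L ^ 5 := by
    rw [hF]
    linarith
  set g := ⌈1600 * k * (F + 1)⌉₊ with hg
  have hkF : 1 ≤ k * (F + 1) := one_le_mul_of_one_le_of_one_le hk' (by linarith)
  have hg1 : 1600 * k * (F + 1) ≤ g := Nat.le_ceil _
  have hg2 : (g : ℝ) ≤ 1601 * k * (F + 1) := by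
    have := Nat.ceil_lt_add_one (show 0 ≤ 1600 * k * (F + 1) by linarith)
    linarith
  have hg3 : (1 : ℝ) ≤ g := by linarith
  have hmain : 2000 * g * k * (1 + L) * (F + 1) ≤ r := by
    calc 2000 * g * k * (1 + L) * (F + 1)
        ≤ 2000 * (1601 * k * ((9 + A) * L ^ 5)) * k * (2 * L) * ((9 + A) * L ^ 5) := by
          have : (g : ℝ) ≤ 1601 * k * ((9 + A) * L ^ 5) :=
            hg2.trans (mul_le_mul_of_nonneg_left hF1 (by positivity))
          gcongr
          linarith
      _ = 2000 * 1601 * k ^ 2 * 2 * (9 + A) ^ 2 * L ^ 11 := by ring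
      _ ≤ r := hr
  have hgr : (g : ℝ) ≤ r := by
    refine le_trans ?_ hmain
    have h1 : (1 : ℝ) ≤ 2000 * (1 + L) * (k * (F + 1)) :=
      one_le_mul_of_one_le_of_one_le (by linarith) hkF
    calc (g : ℝ) ≤ g * (2000 * (1 + L) * (k * (F + 1))) := le_mul_of_one_le_right (by linarith) h1
      _ = _ := by ring
  have hr1 : (1 : ℝ) ≤ r := hg3.trans hgr
  have hgr' : g ≤ r := by exact_mod_cast hgr
  have hg3' : 1 ≤ g := by exact_mod_cast hg3
  set ε : ℝ := 1 / (100 * (r : ℝ) ^ 2) with hε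
  have hε0 : 0 < ε := by positivity
  have hεr : ε * (r : ℝ) ^ 2 = 1 / 100 := by
    rw [hε]
    field_simp
  have hεr1 : ε * r ≤ 1 / 100 := by
    have : ε * r ≤ ε * (r : ℝ) ^ 2 := mul_le_mul_of_nonneg_left (by nlinarith) hε0.le
    linarith
  have hε1 : ε ≤ 1 / 100 := (le_mul_of_one_le_right hε0.le hr1).trans hεr1
  refine ⟨r, g, F, ε, by linarith, hε0, by linarith, hg3', hgr', hmain, ?_⟩
  intro Y c h0 h1 hrec hc hc'
  have hP : ∀ t, t ≤ r → 1 / 8 - 4 * k * hs r t - 3 * ε * t ≤ Y t := by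
    intro t
    induction t with
    | zero => intro _; simpa [hs] using h0
    | succ t ih =>
      intro ht
      have ht' : ((t : ℝ) + 1) ≤ r := by exact_mod_cast ht
      have h2 := ih (by omega)
      have h3 := hrec t (by omega)
      have h4 : ε * Y t ≤ ε := mul_le_of_le_one_right hε0.le (h1 t (by omega))
      have h5 : ε * Real.exp (-F) ≤ ε :=
        mul_le_of_le_one_right hε0.le (Real.exp_le_one_iff.2 (by linarith))
      have h6 : 2 * c t / ((r : ℝ) - t) ≤ 4 * k * (1 / ((r : ℝ) - t)) := by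
        rw [mul_one_div]
        exact div_le_div_of_nonneg_right (by linarith [hc t (by omega)]) (by linarith)
      rw [hs_succ]
      push_cast
      linarith
  have hFt : ∀ t, t < r → 8 + A * hs r t ^ 5 ≤ F := fun t ht => by
    have := mul_le_mul_of_nonneg_left
      (pow_le_pow_left₀ (hs_nonneg r t ht.le) (hs_le_log r t ht) 5) hA0.le
    linarith
  have hQ : ∀ t, t + g ≤ r → Real.exp (-(8 + A * hs r t ^ 5)) ≤ Y t := by
    intro t
    induction t with
    | zero =>
      intro _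
      have := exp_eight
      simp only [hs, Finset.range_zero, Finset.sum_empty]
      norm_num
      linarith
    | succ t ih =>
      intro ht
      have ht' : (t : ℝ) + 1 + g ≤ r := by exact_mod_cast ht
      have ht0 : (0 : ℝ) ≤ t := Nat.cast_nonneg t
      have hu : 1600 * k * (F + 1) ≤ (r : ℝ) - t := by linarith
      have hu0 : (0 : ℝ) < r - t := by linarith
      rcases lt_or_ge (hs r t) s₀ with hlt | hge
      · have h2 := hP (t + 1) (by omega)
        have h3 : 1 / ((r : ℝ) - t) ≤ s₀ :=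
          one_div_le_one_div_of_le (by positivity) (by nlinarith)
        have h4 : hs r (t + 1) ≤ 2 * s₀ := by
          rw [hs_succ]
          linarith
        have h5 : 4 * k * hs r (t + 1) ≤ 4 * k * (2 * s₀) :=
          mul_le_mul_of_nonneg_left h4 (by positivity)
        have h6 : 4 * k * (2 * s₀) = 1 / 25 := by
          rw [hs₀]
          field_simp
          norm_num
        have h7 : ε * ((t + 1 : ℕ) : ℝ) ≤ ε * r :=
          mul_le_mul_of_nonneg_left (by push_cast; linarith) hε0.le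
        have h8 : Real.exp (-(8 + A * hs r (t + 1) ^ 5)) ≤ Real.exp (-8) := by
          have := mul_nonneg hA0.le (pow_nonneg (hs_nonneg r (t + 1) (by omega)) 5)
          exact Real.exp_le_exp.2 (by linarith)
        linarith [exp_eight]
      · rw [hs_succ]
        have hs1 : 0 < hs r t := hs0.trans_le hge
        have hFt' := hFt t (by omega)
        have hn := mul_nonneg hA0.le (pow_nonneg hs1.le 5)
        refine step hs1 hu0 hε0 hε1 ?_ hFt' ?_ ?_ (ih (by omega)) (hrec t (by omega))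
          (hc' t (by omega) _ (by linarith))
        · calc (40 : ℝ) = A * s₀ ^ 5 := by
                rw [hA]
                field_simp
            _ ≤ _ := mul_le_mul_of_nonneg_left (pow_le_pow_left₀ hs0.le hge 5) hA0.le
        · calc 8 * (F + 1) = 1600 * k * (F + 1) * s₀ := by
                rw [hs₀]
                field_simp
                ring
            _ ≤ _ := mul_le_mul hu hge hs0.le hu0.le
        · have h2 : hs r t ≤ r :=
            (hs_le_log r t (by omega)).trans ((Real.log_le_sub_one_of_pos (by linarith)).trans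
              (by linarith))
          have h3 : ((r : ℝ) - t) * hs r t ≤ r * r :=
            mul_le_mul (by linarith) h2 hs1.le (by linarith)
          have h4 := mul_le_mul_of_nonneg_left h3 hε0.le
          nlinarith
  refine le_trans (Real.exp_le_exp.2 ?_) (hQ (r - g) (by omega))
  linarith [hFt (r - g) (by omega)]

end Pool.Agent.MP_6b3410_lc.H21
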